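import Pool.Agent.R529.BU.Pr

/-!
# Primes in intervals of length `(log n) ^ t`: frequent deviations for every exponent `t > 1`

Author: helper529.

The bound `p_{k+1} - p_k < (log p_k) ^ α` for large `k` says that `π(n + (log n) ^ α) - π(n) ≥ 1` for all large
`n`. In Cramér's model one has much more: for `t > 2` the number of primes in `(n, n + (log n) ^ t]` is
`(1 + o(1)) (log n) ^ (t - 1)` for all large `n`, and for every `t > 1` the number of `n ≤ N` for which it differs
from `(log n) ^ (t - 1)` by a constant factor is at most `N exp (-c (log N) ^ (t - 1))`. Maier (1985) proved that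
the asymptotic formula fails infinitely often, for every `t > 1`. The theorem below says how often: for
every `t > 1` and every `κ > 0`, there are, for all large `N`, at least `N exp (-(log N) ^ κ)` integers `n ≤ N`
with at most `(1 - c) (log n) ^ (t - 1)` primes in `(n, n + (log n) ^ t]`, and at least `N exp (-(log N) ^ κ)` PRIMES
`p ≤ N` with at least `(1 + c) (log p) ^ (t - 1)` primes in `(p, p + (log p) ^ t]`. More precisely, with Buchstab's
function `ω`: for every `u > t` this holds with `N exp (-(log N) ^ (t / u))` and any constants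
greater (less) than `e ^ γ ω(u)`; and `e ^ γ ω(u) < 1` and `e ^ γ ω(u) > 1` both hold for arbitrarily large `u`.

Proof. The rows `n ≡ 0` of Maier's matrices over the small modulus `∏ p ≤ (log N) ^ (t / u) / 4` (up to the exceptional
primes), with the relative theorem of Bombieri and Vinogradov of the starting files (helper378, helper510). The number
of survivors is the number of integers `m ≤ z ^ v` without prime factors up to `z`, for which Buchstab's asymptotic
formula `ω(v) z ^ v / log z` is proved here from the prime number theorem (`R529/BU`); the limit `e ^ (-γ)` of `ω` and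
the speed of convergence come from the fundamental lemma of the starting files (`Y829/RZ3`), and the sign changes of
`ω - e ^ (-γ)` from `u D(u) - v D(v) = ∫ D` over `[v - 1, u - 1]`, `D = ω - e ^ (-γ)`.
-/

set_option autoImplicit false

open Filter

namespace Pool.Agent.Results.MP_711652_nt.DeviationsInLogPowerIntervals

/-- `ω` is Buchstab's function: it is continuous on `[1, ∞)`, `u ω(u) = 1` for `1 ≤ u ≤ 2` and
`u ω(u) = 1 + ∫_1^(u-1) ω` for `u ≥ 2` -/
def IsBuchstab (ω : ℝ → ℝ) : Prop :=
  ContinuousOn ω (Set.Ici 1) ∧ (∀ u, 1 ≤ u → u ≤ 2 → u * ω u = 1) ∧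
    ∀ u, 2 ≤ u → u * ω u = 1 + ∫ s in (1 : ℝ)..(u - 1), ω s

open Classical in
/-- the number of integers `1 ≤ n ≤ N` with `π(n + (log n) ^ t) - π(n) ≤ a (log n) ^ (t - 1)` -/
noncomputable def few (t a : ℝ) (N : ℕ) : ℕ :=
  ((Finset.Icc 1 N).filter (fun n : ℕ =>
    (Nat.primeCounting ⌊(n : ℝ) + (Real.log n) ^ t⌋₊ : ℝ) - Nat.primeCounting n ≤ a * (Real.log n) ^ (t - 1))).card

open Classical in
/-- the number of primes `p ≤ N` with `π(p + (log p) ^ t) - π(p) ≥ a (log p) ^ (t - 1)` -/
noncomputable def many (t a : ℝ) (N : ℕ) : ℕ :=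
  ((Finset.Icc 1 N).filter (fun p : ℕ => p.Prime ∧ a * (Real.log p) ^ (t - 1) ≤
    (Nat.primeCounting ⌊(p : ℝ) + (Real.log p) ^ t⌋₊ : ℝ) - Nat.primeCounting p)).card

theorem isBuchstab_om : IsBuchstab Pool.Agent.R529.BU.om :=
  ⟨Pool.Agent.R529.BU.om_cont.continuousOn, Pool.Agent.R529.BU.om_one_two, Pool.Agent.R529.BU.om_two⟩

theorem unique_aux (ω : ℝ → ℝ) (h : IsBuchstab ω) (n : ℕ) :
    ∀ u : ℝ, 1 ≤ u → u ≤ n + 2 → ω u = Pool.Agent.R529.BU.om u := by
  obtain ⟨-, h1, h2⟩ := h
  have hbase : ∀ u : ℝ, 1 ≤ u → u ≤ 2 → ω u = Pool.Agent.R529.BU.om u := by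
    intro u hu1 hu2
    have a1 := h1 u hu1 hu2
    have a2 := Pool.Agent.R529.BU.om_one_two u hu1 hu2
    exact mul_left_cancel₀ (show u ≠ 0 by linarith) (a1.trans a2.symm)
  induction n with
  | zero =>
    intro u hu1 hu2
    exact hbase u hu1 (by push_cast at hu2; linarith)
  | succ n ih =>
    intro u hu1 hu2
    rcases le_total u 2 with h3 | h3
    · exact hbase u hu1 h3
    · have a1 := h2 u h3
      have a2 := Pool.Agent.R529.BU.om_two u h3
      have a3 : ∫ s in (1 : ℝ)..(u - 1), ω s = ∫ s in (1 : ℝ)..(u - 1), Pool.Agent.R529.BU.om s := by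
        apply intervalIntegral.integral_congr
        intro s hs
        rw [Set.uIcc_of_le (by linarith)] at hs
        push_cast at hu2
        exact ih s hs.1 (by linarith [hs.2])
      rw [a3, ← a2] at a1
      exact mul_left_cancel₀ (show u ≠ 0 by linarith) a1

theorem unique (ω : ℝ → ℝ) (h : IsBuchstab ω) (u : ℝ) (hu : 1 ≤ u) : ω u = Pool.Agent.R529.BU.om u :=
  unique_aux ω h ⌈u⌉₊ u hu (by linarith [Nat.le_ceil u])

theorem few_mono (t a b : ℝ) (N : ℕ) (h : a ≤ b) : few t a N ≤ few t b N := by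
  classical
  unfold few
  apply Finset.card_le_card
  intro n hn
  rw [Finset.mem_filter] at hn ⊢
  refine ⟨hn.1, hn.2.trans ?_⟩
  exact mul_le_mul_of_nonneg_right h (Real.rpow_nonneg (Real.log_natCast_nonneg n) _)

theorem partA (t u ε : ℝ) (ht : 1 < t) (htu : t < u) (hε : 0 < ε) : ∀ᶠ N : ℕ in atTop,
    (N : ℝ) * Real.exp (-((Real.log N) ^ (t / u))) ≤
        few t (Real.exp Real.eulerMascheroniConstant * Pool.Agent.R529.BU.om u + ε) N ∧
      (N : ℝ) * Real.exp (-((Real.log N) ^ (t / u))) ≤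
        many t (Real.exp Real.eulerMascheroniConstant * Pool.Agent.R529.BU.om u - ε) N := by
  have hu0 : 0 < u := by linarith
  have h1 : 0 < t / u := by positivity
  have h2 : t / u < 1 := by rw [div_lt_one hu0]; exact htu
  have h4 : t / (t / u) = u := by field_simp
  have hw : Pool.Agent.R529.BU.ww t (t / u) = Real.exp Real.eulerMascheroniConstant * Pool.Agent.R529.BU.om u := by
    unfold Pool.Agent.R529.BU.ww
    rw [h4]
  filter_upwards [Pool.Agent.R529.BU.freq_low t (t / u) ε ht h1 h2 hε,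
    Pool.Agent.R529.BU.freq_prime t (t / u) ε ht h1 h2 hε] with N hN1 hN2
  rw [hw] at hN1 hN2
  exact ⟨hN1, hN2⟩

theorem partB (A : ℝ) : (∃ u, A ≤ u ∧ Real.exp Real.eulerMascheroniConstant * Pool.Agent.R529.BU.om u < 1) ∧
    (∃ u, A ≤ u ∧ 1 < Real.exp Real.eulerMascheroniConstant * Pool.Agent.R529.BU.om u) := by
  have hE : Real.exp Real.eulerMascheroniConstant * Real.exp (-Real.eulerMascheroniConstant) = 1 := by
    rw [← Real.exp_add, add_neg_cancel, Real.exp_zero]
  have hE0 := Real.exp_pos Real.eulerMascheroniConstant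
  constructor
  · obtain ⟨u, h1, h2⟩ := Pool.Agent.R529.BU.om_lt A
    refine ⟨u, h1, ?_⟩
    rw [← hE]
    exact mul_lt_mul_of_pos_left h2 hE0
  · obtain ⟨u, h1, h2⟩ := Pool.Agent.R529.BU.om_gt A
    refine ⟨u, h1, ?_⟩
    rw [← hE]
    exact mul_lt_mul_of_pos_left h2 hE0

/-- Large deviations of the number of primes in intervals of length `(log n) ^ t`, for every `t > 1`. -/
theorem result : (∃ ω, IsBuchstab ω) ∧ ∀ ω, IsBuchstab ω →
    (∀ t u ε : ℝ, 1 < t → t < u → 0 < ε → ∀ᶠ N : ℕ in atTop,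
      (N : ℝ) * Real.exp (-((Real.log N) ^ (t / u))) ≤ few t (Real.exp Real.eulerMascheroniConstant * ω u + ε) N ∧
      (N : ℝ) * Real.exp (-((Real.log N) ^ (t / u))) ≤ many t (Real.exp Real.eulerMascheroniConstant * ω u - ε) N) ∧
    (∀ A : ℝ, (∃ u, A ≤ u ∧ Real.exp Real.eulerMascheroniConstant * ω u < 1) ∧
      (∃ u, A ≤ u ∧ 1 < Real.exp Real.eulerMascheroniConstant * ω u)) ∧
    (∀ t κ : ℝ, 1 < t → 0 < κ → ∃ c : ℝ, 0 < c ∧ ∀ᶠ N : ℕ in atTop,
      (N : ℝ) * Real.exp (-((Real.log N) ^ κ)) ≤ few t (1 - c) N ∧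
      (N : ℝ) * Real.exp (-((Real.log N) ^ κ)) ≤ many t (1 + c) N) := by
  refine ⟨⟨_, isBuchstab_om⟩, fun ω hω => ⟨?_, ?_, ?_⟩⟩
  · intro t u ε ht htu hε
    rw [unique ω hω u (by linarith)]
    exact partA t u ε ht htu hε
  · intro A
    obtain ⟨⟨u, h1, h2⟩, v, h3, h4⟩ := partB (max 1 A)
    refine ⟨⟨u, (le_max_right _ _).trans h1, ?_⟩, v, (le_max_right _ _).trans h3, ?_⟩
    · rw [unique ω hω u ((le_max_left _ _).trans h1)]; exact h2
    · rw [unique ω hω v ((le_max_left _ _).trans h3)]; exact h4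
  · intro t κ ht hκ
    obtain ⟨⟨u, h1, h2⟩, v, h3, h4⟩ := partB (max (t + 1) (t / κ))
    set a := Real.exp Real.eulerMascheroniConstant * Pool.Agent.R529.BU.om u with ha
    set b := Real.exp Real.eulerMascheroniConstant * Pool.Agent.R529.BU.om v with hb
    have hu1 : t + 1 ≤ u := (le_max_left _ _).trans h1
    have hv1 : t + 1 ≤ v := (le_max_left _ _).trans h3
    have hu2 : t / u ≤ κ := by
      have := (le_max_right (t + 1) (t / κ)).trans h1
      rw [div_le_iff₀ hκ] at this
      rw [div_le_iff₀ (by linarith)]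
      linarith
    have hv2 : t / v ≤ κ := by
      have := (le_max_right (t + 1) (t / κ)).trans h3
      rw [div_le_iff₀ hκ] at this
      rw [div_le_iff₀ (by linarith)]
      linarith
    refine ⟨min ((1 - a) / 2) ((b - 1) / 2), lt_min (by linarith) (by linarith), ?_⟩
    have hlog : Tendsto (fun n : ℕ => Real.log n) atTop atTop :=
      Real.tendsto_log_atTop.comp tendsto_natCast_atTop_atTop
    filter_upwards [partA t u ((1 - a) / 2) ht (by linarith) (by linarith),
      partA t v ((b - 1) / 2) ht (by linarith) (by linarith), hlog.eventually_ge_atTop 1] with N hN1 hN2 hN3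
    constructor
    · have h5 : (N : ℝ) * Real.exp (-((Real.log N) ^ κ)) ≤ (N : ℝ) * Real.exp (-((Real.log N) ^ (t / u))) := by
        apply mul_le_mul_of_nonneg_left _ (Nat.cast_nonneg _)
        apply Real.exp_le_exp.2
        exact neg_le_neg (Real.rpow_le_rpow_of_exponent_le hN3 hu2)
      refine h5.trans (hN1.1.trans ?_)
      have h6 := few_mono t (a + (1 - a) / 2) (1 - min ((1 - a) / 2) ((b - 1) / 2)) N (by
        have := min_le_left ((1 - a) / 2) ((b - 1) / 2)
        linarith)
      exact_mod_cast h6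
    · have h5 : (N : ℝ) * Real.exp (-((Real.log N) ^ κ)) ≤ (N : ℝ) * Real.exp (-((Real.log N) ^ (t / v))) := by
        apply mul_le_mul_of_nonneg_left _ (Nat.cast_nonneg _)
        apply Real.exp_le_exp.2
        exact neg_le_neg (Real.rpow_le_rpow_of_exponent_le hN3 hv2)
      refine h5.trans (hN2.2.trans ?_)
      have h6 := Pool.Agent.R529.BU.cP_anti t N (1 + min ((1 - a) / 2) ((b - 1) / 2)) (b - (b - 1) / 2) (by
        have := min_le_right ((1 - a) / 2) ((b - 1) / 2)
        linarith)
      exact_mod_cast h6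

end Pool.Agent.Results.MP_711652_nt.DeviationsInLogPowerIntervals
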