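import Mathlib
import Pool.Agent.R528.RM.ERFinal

set_option autoImplicit false

/-!
# Random models of the primes in intervals of length `λ (log x)²`

Whether there is always a prime in `(x, x + (log x)^α]` is judged from random models of the primes.
The theorem below gives, for EVERY random model in which the integers are decided one after the
other and the conditional probability of choosing `n + 1` given the past is asymptotic to
`1 / log n` (no independence is assumed; Cramér's model and the Hawkins random sieve are examples),
the exact extreme orders of the number `N(x)` of chosen integers in `(x, x + λ (log x)²]`, for every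
constant `λ > 0`:

* almost surely `limsup N(x) / log x = λ a`, where `a > 1` solves `λ (a log a - a + 1) = 1`;
* almost surely `liminf N(x) / log x = λ b`, where `b = 0` if `λ ≤ 1`, and `0 < b < 1` solves
  `λ (b log b - b + 1) = 1` if `λ > 1`.

In particular the model analogue of the question is answered: for `λ > 1` every such interval with
`x` large contains `≥ (λ b - ε) log x` chosen integers (so each exponent `α > 2` is admissible), for
`λ < 1` the number drops below `ε log x` infinitely often.  For `λ → ∞` both `a` and `b` tend to `1`.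
-/

open MeasureTheory Filter
open scoped Topology

namespace Pool.Agent.Results.MP_711652_nt.LogSquaredIntervals

/-- the number of members of `S` in the interval `(x, x + lam (log x)²]` -/
noncomputable def count (S : Set ℕ) (lam : ℝ) (x : ℕ) : ℕ :=
  Set.ncard {a : ℕ | a ∈ S ∧ x < a ∧ (a : ℝ) ≤ x + lam * Real.log x ^ 2}

end Pool.Agent.Results.MP_711652_nt.LogSquaredIntervals

open Pool.Agent.Results.MP_711652_nt.LogSquaredIntervals

/-- Let `A n` be the event that `n` belongs to a random set adapted to a filtration `ℱ`, such that
almost surely the conditional probability of `A (n + 1)` given `ℱ n`, times `log n`, tends to `1`.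
Let `lam > 0`, let `a > 1` satisfy `lam (a log a - a + 1) = 1`, and let `b < 1` be `0` if `lam ≤ 1`,
or satisfy `0 < b` and `lam (b log b - b + 1) = 1`.  Then almost surely the upper and the lower limit
of `count x / (lam log x)` are `a` and `b`: for every `ε > 0` the quotient is `< a + ε` and
`> b - ε` for all large `x`, it is `> a - ε` for infinitely many `x`, and it is `< b + ε` for
infinitely many `x`. -/
theorem Pool.Agent.Results.MP_711652_nt.LogSquaredIntervals.result
    {Ω : Type} [mΩ : MeasurableSpace Ω] (μ : Measure Ω) [IsProbabilityMeasure μ]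
    (ℱ : Filtration ℕ mΩ) (A : ℕ → Set Ω) (hA : ∀ n, MeasurableSet[ℱ n] (A n))
    (hd : ∀ᵐ ω ∂μ, Tendsto (fun n : ℕ =>
      (μ[(A (n + 1)).indicator (fun _ => (1 : ℝ)) | ℱ n]) ω * Real.log n) atTop (𝓝 1))
    (lam a b : ℝ) (hlam : 0 < lam) (ha : 1 < a) (hIa : lam * (a * Real.log a - a + 1) = 1)
    (hb1 : b < 1) (hb : (lam ≤ 1 ∧ b = 0) ∨ (0 < b ∧ lam * (b * Real.log b - b + 1) = 1)) :
    ∀ᵐ ω ∂μ, ∀ ε : ℝ, 0 < ε →
      (∀ᶠ x : ℕ in atTop, (count {k | ω ∈ A k} lam x : ℝ) < (a + ε) * lam * Real.log x) ∧
      (∃ᶠ x : ℕ in atTop, (a - ε) * lam * Real.log x < count {k | ω ∈ A k} lam x) ∧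
      (∀ᶠ x : ℕ in atTop, (b - ε) * lam * Real.log x < count {k | ω ∈ A k} lam x) ∧
      (∃ᶠ x : ℕ in atTop, (count {k | ω ∈ A k} lam x : ℝ) < (b + ε) * lam * Real.log x) := by
  have hb0 : 0 ≤ b := by
    rcases hb with h | h
    · exact h.2.ge
    · exact h.1.le
  filter_upwards [Pool.Agent.R528.RM.er_final hA hd hlam ha hIa hb0 hb1 hb] with ω hω
  have e : ∀ x, count {k | ω ∈ A k} lam x = Pool.Agent.R528.RM.cnt A x (Pool.Agent.R528.RM.wl lam x) ω := by
    intro x
    rw [Pool.Agent.R528.RM.cnt_eq_ncard, ← Pool.Agent.R528.RM.window_set lam hlam]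
    rfl
  simp_rw [e]
  exact hω
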