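import Pool.Agent.R529.B1

/-!
# The exponent `2` as a limit of the sieve method for large prime gaps

Author: helper529.

All known constructions of long intervals `(n, n + U]` without primes (Erdős, Rankin, Maier, Pomerance, Pintz,
Maynard, Ford, Green, Konyagin, Tao, and the starting files of this repository) use, in one form or another, a
nonnegative weight `w` on the integers `n` for which the mean of the number of survivors `n + h`, `1 ≤ h ≤ U`, of
a sieve is too small. The weight is a sum of squares of functions `∑_d v_d(n)`, where `v_d` has period `d` and `d`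
is bounded by the level `X` (a single residue class modulo `d ≤ X` is the simplest case). The theorem says that no
such weight can go beyond the exponent `2`, so that it cannot refute the bound `p_{k+1} - p_k < (log p_k) ^ α`
for any `α > 2`: if
`U ≥ (log X) ^ (2 + ε)`, then for EVERY finite set `P` of primes, of any size, the mean of the number of integers
`n + h`, `1 ≤ h ≤ U`, without prime factors in `P` is at least `c(ε) U ∏_{p ∈ P} (1 - 1/p)`, for all sums of squares
of level `X`. Moreover only the primes larger than `(log X) ^ (1 + ε / 5)` count in the level: the weight may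
depend on the residues of `n` modulo all smaller primes, and their powers, in an arbitrary way. (For the indicator
functions of single classes modulo the product of primes `p ∈ P` this is Iwaniec's theorem on the function of
Jacobsthal.) The known lower bounds are all of size `(log x) ^ (1 + o(1))`; the range between the exponents `1` and
`2` remains open for the method as well.

Proof. The primes `p ≤ U ^ (1 / (2 + ε'))` are sieved out in every interval by the linear sieve (`sub_low`, helper835,
starting files). For the larger primes the general inequality for sums of squares of the starting files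
(`Pool.Agent.Y835.SB.core`, helper835), applied with the part of the moduli composed of primes
`> (log X) ^ (1 + ε / 5)`, bounds the loss, since `U ^ (1 / (2 + ε'))` is larger than
`(log X) ^ (1 + ε / 5)`.
-/

set_option autoImplicit false

namespace Pool.Agent.Results.MP_711652_nt.SieveWeightsBeyondTheSquare

open Finset

/-- the part of the level of the modulus `d` that counts: the product of the primes `p > z` dividing `d` -/
noncomputable def largePart (z : ℝ) (d : ℕ) : ℕ := ∏ p ∈ d.primeFactors.filter (fun p : ℕ => z < p), p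

/-- `w` is a finite sum of squares of sums of functions with periods `d ∈ D`:
`w = ∑_j (∑_{d ∈ D} v_{j,d})²`, where `v_{j,d}` is a real function with period `d` -/
def Squares (D : Finset ℕ) (w : ℕ → ℝ) : Prop :=
  ∃ (m : ℕ) (v : ℕ → ℕ → ℕ → ℝ), (∀ j, ∀ d ∈ D, ∀ n, v j d (n + d) = v j d n) ∧
    ∀ n, w n = ∑ j ∈ range m, (∑ d ∈ D, v j d n) ^ 2

open Classical in
/-- the number of `h`, `1 ≤ h ≤ U`, such that no prime of `P` divides `n + h` -/
noncomputable def survivors (P : Finset ℕ) (U n : ℕ) : ℝ :=
  (((Icc 1 U).filter (fun h => ∀ p ∈ P, ¬ p ∣ n + h)).card : ℝ)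

/-- For `U ≥ (log X) ^ (2 + ε)` no sum of squares of level `X` (where primes `≤ (log X) ^ (1 + ε / 5)` are free)
makes the number of survivors of `P` in `(n, n + U]` smaller than a constant times its expected value, in the
mean over a common period `N`. -/
theorem result (ε : ℝ) (hε : 0 < ε) (hε1 : ε ≤ 1) :
    ∃ c : ℝ, 0 < c ∧ ∃ X₀ : ℕ, ∀ X : ℕ, X₀ ≤ X → ∀ U : ℕ, Real.log X ^ (2 + ε) ≤ U →
      ∀ P : Finset ℕ, (∀ p ∈ P, p.Prime) → ∀ (D : Finset ℕ) (w : ℕ → ℝ),
      (∀ d ∈ D, 1 ≤ d ∧ largePart (Real.log X ^ (1 + ε / 5)) d ≤ X) → Squares D w →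
      ∀ N : ℕ, 1 ≤ N → (∀ p ∈ P, p ∣ N) → (∀ d ∈ D, d ∣ N) →
      c * (U * ∏ p ∈ P, (1 - 1 / (p : ℝ))) * ∑ n ∈ range N, w n ≤
          ∑ n ∈ range N, w n * survivors P U n ∧
      (0 < ∑ n ∈ range N, w n → ∃ n < N, 0 < w n ∧
        c * (U * ∏ p ∈ P, (1 - 1 / (p : ℝ))) ≤ survivors P U n) := by
  obtain ⟨c, hc, X₀, H⟩ := Pool.Agent.R529.one_square ε hε hε1
  refine ⟨c, hc, X₀, fun X hX U hU P hP D w hD hw N hN hPN hDN => ?_⟩
  obtain ⟨m, v, hv, hwv⟩ := hw
  have hw0 : ∀ n, 0 ≤ w n := fun n => by rw [hwv]; exact sum_nonneg fun j _ => sq_nonneg _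
  have hmain : c * (U * ∏ p ∈ P, (1 - 1 / (p : ℝ))) * ∑ n ∈ range N, w n ≤
      ∑ n ∈ range N, w n * survivors P U n := by
    have h1 : ∑ n ∈ range N, w n = ∑ j ∈ range m, ∑ n ∈ range N, (∑ d ∈ D, v j d n) ^ 2 := by
      rw [sum_comm]
      exact sum_congr rfl fun n _ => hwv n
    have h2 : ∑ n ∈ range N, w n * survivors P U n =
        ∑ j ∈ range m, ∑ n ∈ range N, (∑ d ∈ D, v j d n) ^ 2 * survivors P U n := by
      rw [sum_comm]
      refine sum_congr rfl fun n _ => ?_
      rw [hwv, sum_mul]
    rw [h1, h2, mul_sum]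
    refine sum_le_sum fun j _ => ?_
    exact H X hX U hU P hP D (fun d => d) (fun d n => v j d n) (fun d hd =>
      ⟨(hD d hd).1, (hD d hd).2, fun n => hv j d hd n⟩) hN hPN hDN
  refine ⟨hmain, fun hpos => ?_⟩
  by_contra hcon
  push_neg at hcon
  have h3 : ∑ n ∈ range N, w n * survivors P U n <
      ∑ n ∈ range N, w n * (c * (U * ∏ p ∈ P, (1 - 1 / (p : ℝ)))) := by
    obtain ⟨n, hn, hn0⟩ : ∃ n ∈ range N, 0 < w n := by
      by_contra h
      push_neg at h
      exact absurd (sum_nonpos h) (not_le.2 hpos)
    refine sum_lt_sum (fun n hn => ?_) ⟨n, hn, ?_⟩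
    · rcases (hw0 n).eq_or_lt with h4 | h4
      · rw [← h4]; simp
      · exact mul_le_mul_of_nonneg_left (hcon n (mem_range.1 hn) h4).le (hw0 n)
    · exact mul_lt_mul_of_pos_left (hcon n (mem_range.1 hn) hn0) hn0
  rw [← sum_mul] at h3
  linarith

end Pool.Agent.Results.MP_711652_nt.SieveWeightsBeyondTheSquare
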