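import Pool.Agent.TH646.TT.Pow4
import Pool.Agent.TH823.Fam.Fam2

/-!
# Primes near a positive proportion of the points of almost all translates of very thin sets

Let `A` be an arbitrary set of at least `N ^ (1 - κ)` integers in `[1, N]`, and let `s 1, ..., s x` be a
family of integers of nearly minimal additive energy, for example the values of a polynomial.  For all
but a power-saving proportion of the `m`, a positive proportion of the points `a + s m` of the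
translate of `A` by `s m` have the expected number of primes, up to constants, in the intervals of all
lengths `y ≥ N ^ ε` to the right of them, and a positive proportion have a prime at a distance of at
most `(a + s m) ^ ε` to the left of them.  Here `ε > 0` is arbitrary and `κ > 0` depends on `ε`.
-/

set_option autoImplicit false

namespace Pool.Agent.Results.MP_711652_nt.SparseTranslates

open Finset Filter

/-- The additive energy of order `p` of the family `s 1, ..., s x`: the number of the solutions of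
`s (v 1) + ... + s (v p) = s (w 1) + ... + s (w p)` with all `v i`, `w i` in `{1, ..., x}`. -/
def energy (p x : ℕ) (s : ℕ → ℤ) : ℕ :=
  (((Fintype.piFinset fun _ : Fin p => Icc 1 x) ×ˢ (Fintype.piFinset fun _ : Fin p => Icc 1 x)).filter
    (fun q => ∑ i, s (q.1 i) = ∑ i, s (q.2 i))).card

open Classical in
/-- The number of the `m` in `{1, ..., x}` with the property `E`. -/
noncomputable def num (x : ℕ) (E : ℕ → Prop) : ℝ := (((Icc 1 x).filter E).card : ℝ)

/-- The number of the primes in `(n, n + y]`. -/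
def primesIn (n y : ℕ) : ℕ := ((Ioc n (n + y)).filter Nat.Prime).card

open Classical in
/-- The translate `A + b` has good points: for all integers `y` with `N ^ ε ≤ y ≤ N` the average of
`primesIn (a + b) y` over the `a ∈ A` lies between `c y / log N` and `5 y / log N`, and at least
`c |A|` elements `a` of `A` have at least `c y / log N` primes in `(a + b, a + b + y]`; moreover at least
`c |A|` elements `a` of `A` have a prime between `(a + b) - (a + b) ^ ε` and `a + b`. -/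
def Good (c ε : ℝ) (N : ℕ) (A : Finset ℕ) (b : ℕ) : Prop :=
  (∀ y : ℕ, (N : ℝ) ^ ε ≤ y → y ≤ N →
    c * (A.card * y) ≤ (∑ a ∈ A, (primesIn (a + b) y : ℝ)) * Real.log N ∧
    (∑ a ∈ A, (primesIn (a + b) y : ℝ)) * Real.log N ≤ 5 * (A.card * y) ∧
    c * A.card ≤ ((A.filter fun a => c * y ≤ (primesIn (a + b) y : ℝ) * Real.log N).card : ℝ)) ∧
  c * A.card ≤ ((A.filter fun a => ∃ q : ℕ, q.Prime ∧
    ((a + b : ℕ) : ℝ) - ((a + b : ℕ) : ℝ) ^ ε < q ∧ q < a + b).card : ℝ)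

lemma num_le {x : ℕ} {E : ℕ → Prop} {V : ℝ}
    (h : ∀ S : Finset ℕ, S ⊆ Icc 1 x → (∀ m ∈ S, E m) → (S.card : ℝ) ≤ V) : num x E ≤ V := by
  classical
  unfold num
  apply h _ (filter_subset _ _)
  intro m hm
  rw [mem_filter] at hm
  exact hm.2

/-- There is an absolute constant `c > 0` with the following property.  Let `0 < ε < 1` and `B` be
fixed.
* For every `p` there is a `κ > 0` such that for all large `N` the following holds.  Let `s 1, ..., s x`
  be an arbitrary family of integers in `[-B N, B N]` with an additive energy of order `p` of at most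
  `N ^ κ` times the minimal possible size `x ^ (2 p) / N`, and let `A` be an arbitrary set of at least
  `N ^ (1 - κ)` integers in `[1, N]`.  Then all the members `b = s m` in `[N ^ (1 / 2), N]` of the
  family, with at most `x N ^ (-κ)` exceptions `m ≤ x`, are such that `A + b` has good points.
* In particular this holds for the members `b = b₀ + f m`, `m ≤ x`, where `f` is a fixed nonconstant
  polynomial with integer coefficients, of degree `d`, and `N ^ (1 - κ) ≤ x ^ d ≤ B N`,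
  `|b₀| ≤ B N`. -/
theorem result : ∃ c : ℝ, 0 < c ∧ ∀ ε : ℝ, 0 < ε → ε < 1 → ∀ B : ℕ,
    (∀ p : ℕ, ∃ κ : ℝ, 0 < κ ∧ ∃ N₀ : ℕ, ∀ N : ℕ, N₀ ≤ N →
      ∀ (x : ℕ) (s : ℕ → ℤ), (∀ m ∈ Icc 1 x, |s m| ≤ B * N) →
      (energy p x s : ℝ) * N ≤ (N : ℝ) ^ κ * (x : ℝ) ^ (2 * p) →
      ∀ A : Finset ℕ, A ⊆ Icc 1 N → (N : ℝ) ^ (1 - κ) ≤ A.card →
        num x (fun m => (N : ℝ) ^ (1 / 2 : ℝ) ≤ (s m : ℝ) ∧ s m ≤ N ∧ ¬ Good c ε N A (s m).toNat) ≤
          x * (N : ℝ) ^ (-κ)) ∧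
    (∀ f : Polynomial ℤ, 1 ≤ f.natDegree → ∃ κ : ℝ, 0 < κ ∧ ∃ N₀ : ℕ, ∀ N : ℕ, N₀ ≤ N →
      ∀ x : ℕ, x ^ f.natDegree ≤ B * N → (N : ℝ) ^ (1 - κ) ≤ (x : ℝ) ^ f.natDegree →
      ∀ b₀ : ℤ, |b₀| ≤ B * N → ∀ A : Finset ℕ, A ⊆ Icc 1 N → (N : ℝ) ^ (1 - κ) ≤ A.card →
        num x (fun m => (N : ℝ) ^ (1 / 2 : ℝ) ≤ ((b₀ + f.eval (m : ℤ) : ℤ) : ℝ) ∧
          b₀ + f.eval (m : ℤ) ≤ N ∧ ¬ Good c ε N A (b₀ + f.eval (m : ℤ)).toNat) ≤
          x * (N : ℝ) ^ (-κ)) := by
  classical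
  obtain ⟨c, hc, -, hmain⟩ := Pool.Agent.TH646.TT.pow_two_sided
  have gen : ∀ ε : ℝ, 0 < ε → ε < 1 → ∀ B p : ℕ, ∃ κ : ℝ, 0 < κ ∧ ∃ N₀ : ℕ, ∀ N : ℕ, N₀ ≤ N →
      ∀ (x : ℕ) (s : ℕ → ℤ), (∀ m ∈ Icc 1 x, |s m| ≤ B * N) →
      (energy p x s : ℝ) * N ≤ (N : ℝ) ^ κ * (x : ℝ) ^ (2 * p) →
      ∀ A : Finset ℕ, A ⊆ Icc 1 N → (N : ℝ) ^ (1 - κ) ≤ A.card →
        num x (fun m => (N : ℝ) ^ (1 / 2 : ℝ) ≤ (s m : ℝ) ∧ s m ≤ N ∧ ¬ Good c ε N A (s m).toNat) ≤
          x * (N : ℝ) ^ (-κ) := by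
    intro ε hε hε1 B p
    obtain ⟨κ, hκ, hev⟩ := hmain ε hε hε1 p B
    obtain ⟨N₀, h0⟩ := eventually_atTop.1 hev
    refine ⟨κ, hκ, N₀, fun N hN x s hs hE A hA hAN => ?_⟩
    refine num_le fun S hS1 hS2 => h0 N hN x s hs hE A hA hAN S hS1 ?_
    intro m hm
    obtain ⟨h4, h5, h6⟩ := hS2 m hm
    refine ⟨h4, h5, fun h7 => h6 ⟨?_, ?_⟩⟩
    · intro y hy1 hy2
      exact h7.1 y hy1 hy2
    · exact h7.2
  refine ⟨c, hc, fun ε hε hε1 B => ⟨fun p => gen ε hε hε1 B p, fun f hd => ?_⟩⟩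
  obtain ⟨p, C1, hC1, h1⟩ := Pool.Agent.TH823.Fam.energy_poly' f hd
  obtain ⟨A₁, hA₁⟩ := Pool.Agent.TH823.Fam.poly_size f
  obtain ⟨κ, hκ, N₀, h2⟩ := gen ε hε hε1 (B + A₁ * B) p
  obtain ⟨N₁, h3⟩ := eventually_atTop.1
    ((tendsto_rpow_atTop (show 0 < κ / 2 by linarith)).comp
      tendsto_natCast_atTop_atTop |>.eventually_ge_atTop C1)
  refine ⟨κ / 2, by linarith, N₀ + N₁ + 1, fun N hN x hx1 hx2 b₀ hb A hA hAN => ?_⟩
  have hN1 : (1 : ℝ) ≤ N := by exact_mod_cast (by omega : 1 ≤ N)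
  have hN0 : (0 : ℝ) < N := by linarith
  have hx : 1 ≤ x := by
    by_contra hcon
    have h0 : x = 0 := by omega
    rw [h0, Nat.cast_zero, zero_pow (by omega)] at hx2
    have : (0 : ℝ) < (N : ℝ) ^ (1 - κ / 2) := Real.rpow_pos_of_pos hN0 _
    linarith
  have hx0 : (0 : ℝ) < x := by exact_mod_cast hx
  have hC : C1 ≤ (N : ℝ) ^ (κ / 2) := h3 N (by omega)
  have hs : ∀ m ∈ Icc 1 x, |b₀ + f.eval (m : ℤ)| ≤ (B + A₁ * B : ℕ) * N := by
    intro m hm
    refine (abs_add_le _ _).trans ?_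
    have h4 := hA₁ x hx m hm
    have h5 : (x : ℤ) ^ f.natDegree ≤ B * N := by exact_mod_cast hx1
    push_cast
    calc |b₀| + |Polynomial.eval (m : ℤ) f| ≤ B * N + A₁ * (B * N) := by
          apply add_le_add hb (h4.trans _)
          exact mul_le_mul_of_nonneg_left h5 (by positivity)
      _ = (B + A₁ * B) * N := by ring
  have hE : (energy p x (fun m => b₀ + f.eval (m : ℤ)) : ℝ) * N ≤
      (N : ℝ) ^ κ * (x : ℝ) ^ (2 * p) := by
    have h4 : (energy p x (fun m => b₀ + f.eval (m : ℤ)) : ℝ) * (x : ℝ) ^ f.natDegree ≤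
        C1 * (x : ℝ) ^ (2 * p) := h1 x hx b₀
    have h5 : (N : ℝ) = (N : ℝ) ^ (κ / 2) * (N : ℝ) ^ (1 - κ / 2) := by
      rw [← Real.rpow_add hN0]
      rw [show κ / 2 + (1 - κ / 2) = 1 by ring, Real.rpow_one]
    have h6 : (N : ℝ) ≤ (N : ℝ) ^ (κ / 2) * (x : ℝ) ^ f.natDegree := by
      calc (N : ℝ) = (N : ℝ) ^ (κ / 2) * (N : ℝ) ^ (1 - κ / 2) := h5
        _ ≤ _ := mul_le_mul_of_nonneg_left hx2 (by positivity)
    calc (energy p x (fun m => b₀ + f.eval (m : ℤ)) : ℝ) * N ≤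
          (energy p x (fun m => b₀ + f.eval (m : ℤ)) : ℝ) *
            ((N : ℝ) ^ (κ / 2) * (x : ℝ) ^ f.natDegree) :=
          mul_le_mul_of_nonneg_left h6 (Nat.cast_nonneg _)
      _ = (N : ℝ) ^ (κ / 2) *
            ((energy p x (fun m => b₀ + f.eval (m : ℤ)) : ℝ) * (x : ℝ) ^ f.natDegree) := by ring
      _ ≤ (N : ℝ) ^ (κ / 2) * (C1 * (x : ℝ) ^ (2 * p)) :=
          mul_le_mul_of_nonneg_left h4 (by positivity)
      _ ≤ (N : ℝ) ^ (κ / 2) * ((N : ℝ) ^ (κ / 2) * (x : ℝ) ^ (2 * p)) := by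
          apply mul_le_mul_of_nonneg_left _ (by positivity)
          exact mul_le_mul_of_nonneg_right hC (by positivity)
      _ = (N : ℝ) ^ κ * (x : ℝ) ^ (2 * p) := by
          rw [← mul_assoc, ← Real.rpow_add hN0]
          congr 2
          ring
  have hA2 : (N : ℝ) ^ (1 - κ) ≤ A.card :=
    (Real.rpow_le_rpow_of_exponent_le hN1 (by linarith)).trans hAN
  have h7 := h2 N (by omega) x (fun m => b₀ + f.eval (m : ℤ)) hs hE A hA hA2
  refine h7.trans ?_
  exact mul_le_mul_of_nonneg_left (Real.rpow_le_rpow_of_exponent_le hN1 (by linarith)) hx0.le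

end Pool.Agent.Results.MP_711652_nt.SparseTranslates
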